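import Pool.Agent.H40.ISH.Stmts

/-! Project ISH, modules SEL, SVL, RAD. -/

set_option linter.unusedVariables false

namespace Pool.ISH

open scoped Classical

theorem sel : SELStmt := by
  intro Y ρ
  induction' hn : Y.card using Nat.strong_induction_on with n ih generalizing Y
  rcases Y.eq_empty_or_nonempty with rfl | hne
  · exact ⟨∅, by simp, by simp, by simp⟩
  obtain ⟨x, hx, hmax⟩ := Finset.exists_max_image Y ρ hne
  set Y' := Y.filter (fun y => Disjoint (Qb y (ρ y)) (Qb x (ρ x))) with hY'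
  have hxY' : x ∉ Y' := by
    intro h
    rw [hY', Finset.mem_filter] at h
    exact Finset.disjoint_left.1 h.2 (self_mem_Qb x (ρ x)) (self_mem_Qb x (ρ x))
  have hcard : Y'.card < n := by
    rw [← hn]
    refine Finset.card_lt_card ⟨Finset.filter_subset _ _, fun h => hxY' (h hx)⟩
  obtain ⟨X', hX', hd, hc⟩ := ih Y'.card hcard Y' rfl
  refine ⟨insert x X', ?_, ?_, ?_⟩
  · intro z hz
    rcases Finset.mem_insert.1 hz with rfl | hz
    · exact hx
    · exact (Finset.mem_filter.1 (hX' hz)).1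
  · intro a ha b hb hab
    rcases Finset.mem_insert.1 ha with ha1 | ha1
    · rcases Finset.mem_insert.1 hb with hb1 | hb1
      · exact absurd (ha1.trans hb1.symm) hab
      · rw [ha1]
        exact (Finset.mem_filter.1 (hX' hb1)).2.symm
    · rcases Finset.mem_insert.1 hb with hb1 | hb1
      · rw [hb1]
        exact (Finset.mem_filter.1 (hX' ha1)).2
      · exact hd a ha1 b hb1 hab
  · intro y hy
    by_cases hyY : y ∈ Y'
    · obtain ⟨z, hz, h1⟩ := hc y hyY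
      exact ⟨z, Finset.mem_insert_of_mem hz, h1⟩
    · refine ⟨x, Finset.mem_insert_self _ _, hmax y hy, ?_⟩
      have h1 : ¬ Disjoint (Qb y (ρ y)) (Qb x (ρ x)) := by
        intro h
        exact hyY (Finset.mem_filter.2 ⟨hy, h⟩)
      rw [Finset.not_disjoint_iff] at h1
      obtain ⟨w, hw1, hw2⟩ := h1
      rw [mem_Qb] at hw1 hw2
      intro i
      have h2 := hw1 i
      have h3 := hw2 i
      have h4 : (ρ y : ℤ) ≤ ρ x := by exact_mod_cast hmax y hy
      rw [abs_le] at *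
      constructor <;> linarith [h2.1, h2.2, h3.1, h3.2]

private theorem cnt_mono85 (D : Set Site) (x : Site) {r s : ℕ} (h : r ≤ s) : cnt D x r ≤ cnt D x s :=
  Finset.card_le_card (Finset.filter_subset_filter _ (Qb_mono x h))

theorem svl (h : ISOStmt) : SVLStmt := by
  intro D x ρ r h2 h3 h4 h5 h6
  have h7 : ρ / 2 ≤ r := by omega
  have h8 : cnt D x (ρ / 2) ≤ cnt D x r := cnt_mono85 D x h7
  have h9 : cnt D x r ≤ cnt D x ρ := cnt_mono85 D x h4
  have hρ : (0 : ℝ) ≤ ρ := Nat.cast_nonneg _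
  have h6' : (ρ : ℝ) ^ 3 < 8 * 10 ^ 9 * cnt D x (ρ / 2) := by exact_mod_cast h6
  have h5' : (10 : ℝ) ^ 9 * cnt D x ρ ≤ (ρ : ℝ) ^ 3 := by exact_mod_cast h5
  have h8' : (cnt D x (ρ / 2) : ℝ) ≤ cnt D x r := by exact_mod_cast h8
  have h9' : (cnt D x r : ℝ) ≤ cnt D x ρ := by exact_mod_cast h9
  have h3' : (ρ : ℝ) ≤ 2 * r := by exact_mod_cast h3
  have key := h D x r ((ρ : ℝ) / 2000) (by positivity) (by
    have : ((ρ : ℝ) / 2000) ^ 3 = (ρ : ℝ) ^ 3 / (8 * 10 ^ 9) := by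
      rw [div_pow]; norm_num
    rw [this, div_le_iff₀ (by positivity)]
    nlinarith)
  have hb : 3 * (cnt D x r : ℝ) / (2 * r + 1) ≤ 3 * (ρ : ℝ) ^ 2 / 10 ^ 9 := by
    rw [div_le_div_iff₀ (by positivity) (by positivity)]
    have : (cnt D x r : ℝ) * 10 ^ 9 ≤ (ρ : ℝ) ^ 3 := by nlinarith
    have h10 : (ρ : ℝ) ^ 3 ≤ (ρ : ℝ) ^ 2 * (2 * r + 1) := by
      have : (ρ : ℝ) ^ 3 = (ρ : ℝ) ^ 2 * ρ := by ring
      rw [this]
      exact mul_le_mul_of_nonneg_left (by linarith) (by positivity)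
    nlinarith
  have hr : (ρ : ℝ) ^ 2 ≤ 2 * 10 ^ 6 * sf D x r := by
    have e : 3 * ((ρ : ℝ) / 2000) ^ 2 = 3 * (ρ : ℝ) ^ 2 / (4 * 10 ^ 6) := by
      rw [div_pow]; norm_num; ring
    rw [e] at key
    have hsq : (0 : ℝ) ≤ (ρ : ℝ) ^ 2 := by positivity
    have : 3 * (ρ : ℝ) ^ 2 / (4 * 10 ^ 6) - 3 * (ρ : ℝ) ^ 2 / 10 ^ 9 ≤ sf D x r := by linarith
    have e2 : 3 * (ρ : ℝ) ^ 2 / (4 * 10 ^ 6) - 3 * (ρ : ℝ) ^ 2 / 10 ^ 9 =
      (ρ : ℝ) ^ 2 * (747 / 10 ^ 9) := by ring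
    rw [e2] at this
    nlinarith
  exact_mod_cast hr

theorem rad (hA : RDAStmt) (hB : RDBStmt) (hL : LENStmt) : RADStmt := by
  obtain ⟨ρ₀, hB⟩ := hB
  refine ⟨max ρ₀ 16, ?_⟩
  intro D hD x hx ρ hρ hc
  have hρ1 : ρ₀ ≤ ρ := (le_max_left _ _).trans hρ
  have hρ2 : 16 ≤ ρ := (le_max_right _ _).trans hρ
  have hlen := hL D hD x hx
  have h1 := hA D x ρ hc
  have h2 := hB ρ hρ1 D x (by
    have := hlen (ρ / 2)
    omega)
  by_contra hno
  push Not at hno
  set S1 := (Finset.Icc 1 ρ).filter (fun r => ρ ≤ 2 * r ∧ sf D x r < 8 * cut D x r) with hS1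
  set S2 := (Finset.Icc 1 ρ).filter (fun r => ρ ≤ 2 * r ∧
    sf D x r < (sf D x r - sf D x (r - 1)) * Lg r) with hS2
  have hsub : Finset.Icc ((ρ + 1) / 2) ρ ⊆ S1 ∪ S2 := by
    intro r hr
    rw [Finset.mem_Icc] at hr
    have a1 : 2 ≤ r := by omega
    have a2 : ρ ≤ 2 * r := by omega
    rw [Finset.mem_union]
    by_cases hg : sf D x r < 8 * cut D x r
    · left
      rw [hS1, Finset.mem_filter, Finset.mem_Icc]
      exact ⟨⟨by omega, hr.2⟩, a2, hg⟩
    · right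
      rw [hS2, Finset.mem_filter, Finset.mem_Icc]
      refine ⟨⟨by omega, hr.2⟩, a2, ?_⟩
      by_contra hh
      have := hno r a1 a2 hr.2 (not_lt.1 hg) (not_lt.1 hh)
      have := hlen r
      omega
  have hcard := (Finset.card_le_card hsub).trans (Finset.card_union_le _ _)
  rw [Nat.card_Icc] at hcard
  omega

end Pool.ISH
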